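import Pool.Agent.MP_16e930_an.H98.GoodOf

set_option autoImplicit false
open scoped ENNReal Convolution ContDiff
open Metric Filter Topology MeasureTheory ContinuousLinearMap

namespace Pool.Agent.MP_16e930_an.H75

open Pool.Agent.MP_16e930_an.H98 (E)

lemma conv_zero {g : E → ℝ} {K : Set E} (hg : Function.support g ⊆ K) {δ : ℝ}
    (ρ : ContDiffBump (0 : E)) (hρ : ρ.rOut ≤ δ) :
    Function.support (ρ.normed volume ⋆[lsmul ℝ ℝ, volume] g) ⊆ cthickening δ K := by
  intro x hx
  obtain ⟨a, ha, b, hb, rfl⟩ := support_convolution_subset _ hx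
  rw [ρ.support_normed_eq, mem_ball_zero_iff] at ha
  refine mem_cthickening_of_dist_le _ b δ K (hg hb) ?_
  rw [dist_eq_norm, add_sub_cancel_right]
  exact ha.le.trans hρ

lemma smul_indicator {V : Type} [NormedAddCommGroup V] [NormedSpace ℝ V] {g : E → ℝ} {K : Set E}
    (hg : Function.support g ⊆ K) (F : E → V) :
    (fun x => g x • F x) = fun x => g x • K.indicator F x := by
  funext x
  by_cases hx : x ∈ K
  · rw [Set.indicator_of_mem hx]
  · rw [Function.notMem_support.1 fun h => hx (hg h), zero_smul, zero_smul]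

lemma integrable_smul {V : Type} [NormedAddCommGroup V] [NormedSpace ℝ V] {g : E → ℝ} {K : Set E}
    (hK : IsCompact K) (hg : Function.support g ⊆ K) (hc : Continuous g) {F : E → V}
    (hF : IntegrableOn F K) : Integrable fun x => g x • F x := by
  obtain ⟨C, hC⟩ := (hc.bounded_above_of_compact_support
    (HasCompactSupport.of_support_subset_isCompact hK hg))
  rw [smul_indicator hg]
  exact ((integrable_indicator_iff hK.measurableSet).2 hF).bdd_smul C hc.aestronglyMeasurable
    (Eventually.of_forall hC)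

lemma tendsto_conv {V : Type} [NormedAddCommGroup V] [NormedSpace ℝ V] {g : E → ℝ} {K : Set E}
    (hK : IsCompact K) (hg : Function.support g ⊆ K) (hc : Continuous g) {δ : ℝ} {F : E → V}
    (hF : IntegrableOn F (cthickening δ K)) (ρ : ℕ → ContDiffBump (0 : E))
    (h1 : ∀ n, (ρ n).rOut ≤ δ) (h2 : Tendsto (fun n => (ρ n).rOut) atTop (𝓝 0)) :
    Tendsto (fun n => ∫ x, ((ρ n).normed volume ⋆[lsmul ℝ ℝ, volume] g) x • F x) atTop
      (𝓝 (∫ x, g x • F x)) := by
  obtain ⟨C, hC⟩ := (hc.bounded_above_of_compact_support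
    (HasCompactSupport.of_support_subset_isCompact hK hg))
  have hF' := (integrable_indicator_iff isClosed_cthickening.measurableSet).2 hF
  rw [smul_indicator (hg.trans (self_subset_cthickening (δ := δ) K))]
  simp only [fun n => smul_indicator (conv_zero hg (ρ n) (h1 n)) F]
  refine tendsto_integral_of_dominated_convergence
    (fun x => (3 * C) * ‖(cthickening δ K).indicator F x‖) (fun n => ?_) (hF'.norm.const_mul _)
    (fun n => Eventually.of_forall fun x => ?_) (Eventually.of_forall fun x => ?_)
  · exact ((ρ n).hasCompactSupport_normed.continuous_convolution_left _ (ρ n).continuous_normed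
      hc.locallyIntegrable).aestronglyMeasurable.smul hF'.1
  · rw [norm_smul]
    refine mul_le_mul_of_nonneg_right ?_ (norm_nonneg _)
    have a1 := (ρ n).dist_normed_convolution_le (μ := volume) (x₀ := x) (ε := 2 * C)
      hc.aestronglyMeasurable fun y _ => by
        rw [dist_eq_norm]
        linarith [norm_sub_le (g y) (g x), hC y, hC x]
    have a2 := norm_le_norm_add_norm_sub' (((ρ n).normed volume ⋆[lsmul ℝ ℝ, volume] g) x) (g x)
    rw [← dist_eq_norm] at a2
    linarith [hC x]
  · exact (ContDiffBump.convolution_tendsto_right_of_continuous h2 hc x).smul_const _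

/-- An integration by parts identity for smooth test functions extends to `C¹` ones. -/
lemma weak_of_smooth {U : Set E} (hU : IsOpen U) {u w : E → ℝ} (v : E)
    (hu : ∀ K ⊆ U, IsCompact K → IntegrableOn u K) (hw : ∀ K ⊆ U, IsCompact K → IntegrableOn w K)
    (h : ∀ φ : E → ℝ, ContDiff ℝ ∞ φ → HasCompactSupport φ → tsupport φ ⊆ U →
      ∫ x, fderiv ℝ φ x v * u x = -∫ x, φ x * w x)
    (φ : E → ℝ) (h1 : ContDiff ℝ 1 φ) (h2 : HasCompactSupport φ) (h3 : tsupport φ ⊆ U) :
    ∫ x, fderiv ℝ φ x v * u x = -∫ x, φ x * w x := by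
  have hK : IsCompact (tsupport φ) := h2
  obtain ⟨δ, hδ0, hδ⟩ := hK.exists_cthickening_subset_open hU h3
  let ρ : ℕ → ContDiffBump (0 : E) := fun n =>
    ⟨δ / (n + 1) / 2, δ / (n + 1), by positivity, half_lt_self (by positivity)⟩
  have a1 : ∀ n, (ρ n).rOut ≤ δ := fun n => div_le_self hδ0.le (by simp)
  have a2 : Tendsto (fun n => (ρ n).rOut) atTop (𝓝 0) := by
    have := tendsto_one_div_add_atTop_nhds_zero_nat (𝕜 := ℝ).const_mul δ
    simp only [mul_zero, mul_one_div] at this
    exact this
  have hd : Continuous (fderiv ℝ φ) := h1.continuous_fderiv one_ne_zero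
  have hs : Function.support (fun x => fderiv ℝ φ x v) ⊆ tsupport φ := fun x hx => by
    by_contra hn
    exact hx (by simp [fderiv_of_notMem_tsupport ℝ hn])
  have t1 := tendsto_conv hK hs (hd.clm_apply continuous_const)
    (hu _ hδ hK.cthickening) ρ a1 a2
  have t2 := tendsto_conv hK (subset_tsupport φ) h1.continuous (hw _ hδ hK.cthickening) ρ a1 a2
  refine tendsto_nhds_unique t1 (t2.neg.congr fun n => ?_)
  have hts : tsupport ((ρ n).normed volume ⋆[lsmul ℝ ℝ, volume] φ) ⊆ cthickening δ (tsupport φ) :=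
    closure_minimal (conv_zero (subset_tsupport φ) (ρ n) (a1 n)) isClosed_cthickening
  have e := h ((ρ n).normed volume ⋆[lsmul ℝ ℝ, volume] φ)
    ((ρ n).hasCompactSupport_normed.contDiff_convolution_left _ (ρ n).contDiff_normed
      h1.continuous.locallyIntegrable)
    (hK.cthickening.of_isClosed_subset (isClosed_tsupport _) hts) (hts.trans hδ)
  simp only [smul_eq_mul]
  rw [← e]
  congr 1
  funext x
  rw [(h2.hasFDerivAt_convolution_right (lsmul ℝ ℝ)
    (ρ n).continuous_normed.locallyIntegrable h1 x).fderiv,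
    convolution_precompR_apply _ (ρ n).continuous_normed.locallyIntegrable (h2.fderiv ℝ) hd]

end Pool.Agent.MP_16e930_an.H75
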